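import Pool.Agent.Helper69.OT.Defs

/-!
# Sides of a brick and their realizations (project OT, MP_409f7f_co): definitions

`el nb y d t` is the brick face on the `d`-side of the edge `(d, t)` of the brick `y`, with the
direction in which the edge lies.  `SF nb y d` is the set of brick faces behind the side `d` of
`y`: the face itself if it is exposed, otherwise all faces of the branch glued there.
-/

set_option autoImplicit false

namespace Pool.Agent.Helper69.OT

open Pool.Agent.Helper17.UF Relation

/-- State of a face at one of its sides: head (the column leaves there), tail, lateral. -/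
inductive St | T | A | L
  deriving DecidableEq, Fintype

/-- The state at the side `t` of a face whose column has the direction `n`. -/
def stOf (n t : Dir) : St := if n = t then St.T else if n = t.neg then St.A else St.L

/-- Level of a state at a side with both ends black (`c = false`) or both white (`c = true`). -/
def lev : Bool → St → ℕ
  | false, St.A => 2 | false, St.L => 1 | false, St.T => 0
  | true, St.T => 2 | true, St.L => 1 | true, St.A => 0

/-- `a` is a weaker claim than `b`, for the colour `c` of the side (`none`: ends of different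
colours). -/
def cle : Option Bool → St → St → Bool
  | none, a, b => decide (a = b)
  | some c, a, b => decide (lev c a ≤ lev c b)

/-- Claims for the two faces at an edge that are compatible. -/
def edgeC : Option Bool → St → St → Bool
  | none, a, b => (decide (a = St.T) && decide (b = St.A)) ||
      (decide (a = St.A) && decide (b = St.T)) || (decide (a = St.L) && decide (b = St.L))
  | some c, a, b => decide (lev c a = 2) || decide (lev c b = 2) ||
      (decide (1 ≤ lev c a) && decide (1 ≤ lev c b))

/-- Under the claims `a`, `b` a column may pass from the first face to the second. -/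
def flowC (c : Option Bool) (a b : St) : Bool := cle c a St.T && cle c b St.A

/-- Colour of the edge `(d, t)` of a box: `none` if its ends have different colours. -/
def ecol (χ : (Fin 3 → Bool) → Bool) (d t : Dir) : Option Bool :=
  if χ (cor d t (Dir.cross d t)) = χ (cor d t (Dir.cross d t).neg) then
    some (χ (cor d t (Dir.cross d t))) else none

section sides

variable {ι : Type} (nb : ι → Dir → Option ι)

/-- The brick face on the `d`-side of the edge `(d, t)` of `y`. -/
def el (y : ι) (d t : Dir) : BF ι × Dir :=
  match nb y d with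
  | none => ((y, d), t)
  | some c => match nb c t with
    | none => ((c, t), d.neg)
    | some g => ((g, d.neg), t.neg)

/-- The brick faces behind the side `d` of `y`. -/
def SF (y : ι) (d : Dir) : Set (BF ι) :=
  {A | (nb y d = none ∧ A = (y, d)) ∨
    ∃ c, nb y d = some c ∧ IsBF nb A ∧ A.1 ∈ Br (bgraph nb) y c}

/-- Some side of the brick face has ends of different colours. -/
def NonMono (χ : ι → (Fin 3 → Bool) → Bool) (A : BF ι) : Prop := ∃ t, BiSide χ A t

/-- The conditions of a closed ladder at the face `A`, as far as they concern the faces of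
`S`. -/
structure FaceOK (N : BF ι → Dir) (χ : ι → (Fin 3 → Bool) → Bool) (ρ : BF ι → ℕ)
    (S : Set (BF ι)) (A : BF ι) : Prop where
  perp : Dir.perp A.2 (N A) = true
  mono : ∀ l, Perp3 A.2 (N A) l → χ A.1 (cor A.2 (N A).neg l) = true →
    χ A.1 (cor A.2 (N A) l) = true
  top : (bnbr nb A (N A)).1 ∈ S → N (bnbr nb A (N A)).1 ≠ (bnbr nb A (N A)).2.neg →
    ∀ l, Perp3 A.2 (N A) l → χ A.1 (cor A.2 (N A) l) = true
  bot : (bnbr nb A (N A).neg).1 ∈ S → N (bnbr nb A (N A).neg).1 ≠ (bnbr nb A (N A).neg).2 →
    ∀ l, Perp3 A.2 (N A) l → χ A.1 (cor A.2 (N A).neg l) = false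
  rank : (bnbr nb A (N A)).1 ∈ S → N (bnbr nb A (N A)).1 = (bnbr nb A (N A)).2.neg →
    ρ (bnbr nb A (N A)).1 < ρ A

/-- The curve inside `S`. -/
def BBiS (χ : ι → (Fin 3 → Bool) → Bool) (S : Set (BF ι)) (A B : BF ι) : Prop :=
  BBi nb χ A B ∧ A ∈ S ∧ B ∈ S

/-- `N`, `χ`, `ρ` realize the claims `st` behind the side `d` of `y`. -/
structure Realz (y : ι) (d : Dir) (st : Dir → St) (N : BF ι → Dir)
    (χ : ι → (Fin 3 → Bool) → Bool) (ρ : BF ι → ℕ) : Prop where
  face : ∀ A ∈ SF nb y d, FaceOK nb N χ ρ (SF nb y d) A
  neck : ∀ c, nb y d = some c → ∀ i ∈ Br (bgraph nb) y c, ∀ e j, nb i e = some j →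
    ∀ t l, Perp3 e t l → χ i (cor e t l) = χ j (cor e.neg t l)
  clm : ∀ t, Dir.perp d t = true →
    cle (ecol (χ y) d t) (st t) (stOf (N (el nb y d t).1) (el nb y d t).2) = true
  conn : ∀ A ∈ SF nb y d, NonMono χ A → ∀ t, Dir.perp d t = true → ecol (χ y) d t = none →
    EqvGen (BBiS nb χ (SF nb y d)) A (el nb y d t).1
  cross : nb y d ≠ none → ∃ t, Dir.perp d t = true ∧ ecol (χ y) d t = none

/-- The claims `st` behind the side `d` of `y` can be realized, if the corners of `y` have the
colours `χ0` on that side. -/
def SideReal (y : ι) (d : Dir) (χ0 : (Fin 3 → Bool) → Bool) (st : Dir → St) : Prop :=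
  ∃ N χ ρ, (∀ t l, Perp3 d t l → χ y (cor d t l) = χ0 (cor d t l)) ∧ Realz nb y d st N χ ρ

end sides

end Pool.Agent.Helper69.OT
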