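import Pool.Agent.Helper69.OT.Check
import Pool.Agent.Helper69.OT.Side
import Pool.Agent.Helper26.OT.Bond

/-!
# Meaning of the codes of the certificate (project OT, MP_409f7f_co)

Sides are numbered `0 .. 5` (`px, nx, py, ny, pz, nz`), corners `0 .. 7` (bit `a` of the number is
set iff the corner lies on the positive side of the axis `a`).  `cyc s j` are the corners of the
side `s` in cyclic order, `adjE s j` is the side across the edge from `cyc s j` to `cyc s (j+1)`.
-/

set_option autoImplicit false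

namespace Pool.Agent.Helper69.OT

open Pool.Agent.Helper17.UF Pool.Agent.Helper26.OT

/-- Direction of a side. -/
def sideD : ℕ → Dir
  | 0 => Dir.px | 1 => Dir.nx | 2 => Dir.py | 3 => Dir.ny | 4 => Dir.pz | _ => Dir.nz

/-- Number of a side. -/
def sideN : Dir → ℕ
  | Dir.px => 0 | Dir.nx => 1 | Dir.py => 2 | Dir.ny => 3 | Dir.pz => 4 | Dir.nz => 5

/-- Corner `j` of the ring of the side `s`. -/
def cyc (s j : ℕ) : ℕ :=
  (([[1, 3, 7, 5], [0, 4, 6, 2], [2, 6, 7, 3], [0, 1, 5, 4], [4, 5, 7, 6], [0, 2, 3, 1]] :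
    List (List ℕ)).getD s []).getD (j % 4) 0

/-- Side across the edge `j` of the ring of the side `s`. -/
def adjE (s j : ℕ) : ℕ :=
  (([[5, 2, 4, 3], [3, 4, 2, 5], [1, 4, 0, 5], [5, 0, 4, 1], [3, 0, 2, 1], [1, 2, 0, 3]] :
    List (List ℕ)).getD s []).getD (j % 4) 0

/-- The edge of the ring of `s` that leads to the side `t` (`4` if there is none). -/
def jOf (s t : ℕ) : ℕ :=
  if adjE s 0 = t then 0 else if adjE s 1 = t then 1 else if adjE s 2 = t then 2
  else if adjE s 3 = t then 3 else 4

/-- Digit `j` of a state word. -/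
def dg (c j : ℕ) : ℕ := c / 3 ^ (3 - j) % 3

/-- State of a digit. -/
def toSt : ℕ → St
  | 0 => St.T | 1 => St.A | _ => St.L

/-- Ring word of the side `s` under the colouring `σ`. -/
def ringOf (σ s : ℕ) : ℕ :=
  (σ.testBit (cyc s 0)).toNat + 2 * (σ.testBit (cyc s 1)).toNat +
    4 * (σ.testBit (cyc s 2)).toNat + 8 * (σ.testBit (cyc s 3)).toNat

/-- Colour of the edge `j` of the ring of `s`. -/
def col (σ s j : ℕ) : Option Bool :=
  if σ.testBit (cyc s j) = σ.testBit (cyc s (j + 1)) then some (!σ.testBit (cyc s j)) else none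

/-- Number of a corner. -/
def vtx (κ : Fin 3 → Bool) : ℕ := (κ 0).toNat + 2 * (κ 1).toNat + 4 * (κ 2).toNat

/-- Position of a corner in the ring of the side `s`. -/
def posJ (s : ℕ) (κ : Fin 3 → Bool) : ℕ :=
  if cyc s 0 = vtx κ then 0 else if cyc s 1 = vtx κ then 1 else if cyc s 2 = vtx κ then 2 else 3

/-- Colours of the pattern `p` at the side `s` of a brick. -/
def chP (s p : ℕ) : (Fin 3 → Bool) → Bool := fun κ => !((p / 81).testBit (posJ s κ))

/-- States of the pattern `p` at the side `s` of a brick. -/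
def stP (s p : ℕ) (t : Dir) : St := toSt (dg (p % 81) (jOf s (sideN t)))

/-- Colours of the pattern `p` of the branch glued to the side `pz`. -/
def chC (p : ℕ) : (Fin 3 → Bool) → Bool := fun κ =>
  !((p / 81).testBit (posJ 5 ![κ 0, κ 1, false]))

/-- States of the pattern `p` of the branch glued to the side `pz`. -/
def stC (p : ℕ) (t : Dir) : St := toSt (dg (p % 81) (jOf 5 (sideN t)))

/-- The frame of the side `s`: `pz` goes to the side, the ring of `nz` to its ring. -/
def frS (s : ℕ) : Dir → Dir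
  | Dir.pz => sideD s
  | Dir.nz => (sideD s).neg
  | Dir.nx => sideD (adjE s 0)
  | Dir.py => sideD (adjE s 1)
  | Dir.px => sideD (adjE s 2)
  | Dir.ny => sideD (adjE s 3)

/-- The conditions at a brick with parent at the side `5`: colours `σ`, state words `c s` of the
sides `0 .. 4`, the result `c 5`, the order `ord` of the sides. -/
structure WOK (σ : ℕ) (c : ℕ → ℕ) (ord : ℕ → ℕ) : Prop where
  lt : σ < 256
  bond : bondT.testBit σ = true
  code : ∀ s < 6, c s < 81
  int : ∀ s < 5, ∀ j < 4, adjE s j < 5 → edgeC (col σ s j) (toSt (dg (c s) j))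
    (toSt (dg (c (adjE s j)) (jOf (adjE s j) s))) = true
  flow : ∀ s < 5, ∀ j < 4, adjE s j < 5 → flowC (col σ s j) (toSt (dg (c s) j))
    (toSt (dg (c (adjE s j)) (jOf (adjE s j) s))) = true → ord (adjE s j) < ord s
  bi : ∃ j < 4, col σ 5 j = none
  ring : ∀ j < 4, cle (col σ 5 j) (toSt (dg (c 5) j))
    (toSt (dg (c (adjE 5 j)) (jOf (adjE 5 j) 5))) = true

end Pool.Agent.Helper69.OT
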