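import Mathlib

/-!
# Masks (project OT, MP_409f7f_co)
-/

set_option autoImplicit false

namespace Pool.Agent.Helper69.OT

/-- Five bits form a number below 32. -/
theorem exists_mask (f : ℕ → Bool) : ∃ C < 32, ∀ s < 5, C.testBit s = f s := by
  have key : ∀ b0 b1 b2 b3 b4 : Bool, ∃ C : Fin 32, C.val.testBit 0 = b0 ∧
      C.val.testBit 1 = b1 ∧ C.val.testBit 2 = b2 ∧ C.val.testBit 3 = b3 ∧
      C.val.testBit 4 = b4 := by decide
  obtain ⟨C, h0, h1, h2, h3, h4⟩ := key (f 0) (f 1) (f 2) (f 3) (f 4)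
  refine ⟨C.val, C.isLt, ?_⟩
  intro s hs
  interval_cases s
  exacts [h0, h1, h2, h3, h4]

end Pool.Agent.Helper69.OT
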