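import Pool.Agent.Helper69.OT.Induct
import Pool.Agent.Helper69.OT.Mask
import Pool.Agent.Helper84.OT.Node
import Pool.Agent.Helper25.OT.Word
import Pool.Agent.Helper26.OT.Tree

/-!
# The step of the induction from the certificate (project OT, MP_409f7f_co)
-/

set_option autoImplicit false

namespace Pool.Agent.Helper69.OT

open Pool.Agent.Helper17.UF Pool.Agent.Helper26.OT Pool.Agent.Helper26.OTree Relation

/-- A bit of a group survives in every row that contains the group. -/
theorem bit_of_land {g r x : ℕ} (h : Nat.land g r = g) (hx : g.testBit x = true) :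
    r.testBit x = true := by
  have h1 : (g &&& r).testBit x = g.testBit x := congrArg (fun n => Nat.testBit n x) h
  rw [Nat.testBit_and, hx] at h1
  simpa using h1

theorem sideD_five : sideD 5 = Dir.nz := rfl

theorem adjE_lt : ∀ s < 5, ∀ j < 4, adjE s j ≠ 5 → adjE s j < 5 := by decide

theorem adjE5_lt : ∀ j < 4, adjE 5 j < 5 := by decide

/-- The step of the induction, given a decision tree for every set of children. -/
theorem nodeCert_of (hall : ∀ C < 32, ∃ t : Tr, chkC C t = true) : NodeCert kmask := by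
  intro ι _ nb H hA b y hu X hX
  classical
  obtain ⟨C, hC, hCb⟩ := exists_mask (fun s => decide (nb y (sideD s) ≠ none))
  have hback : nb y Dir.nz = some b := H.symm _ _ _ hu
  have hbit : ∀ s < 5, (C.testBit s = true ↔ nb y (sideD s) ≠ none) := by
    intro s hs
    rw [hCb s hs, decide_eq_true_eq]
  obtain ⟨t, ht⟩ := hall C hC
  have hX' : ∀ s < 5, if C.testBit s = true then X s < nIM ∧
      (∀ j < 4, (kmask (X s)).testBit j = true → adjE s j ≠ 5 ∧ C.testBit (adjE s j) = false)
      else X s = nIM := by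
    intro s hs
    rcases hX s hs with ⟨h1, h2⟩ | ⟨h1, h2, h3, -⟩
    · rw [if_neg (by rw [hbit s hs]; exact fun h => h h1)]
      exact h2
    · rw [if_pos ((hbit s hs).2 h1)]
      refine ⟨h2, fun j hj hb => ?_⟩
      have h4 := h3 j hj hb
      have h5 : adjE s j ≠ 5 := by
        intro h5
        rw [h5, sideD_five, hback] at h4
        exact absurd h4 (by simp)
      refine ⟨h5, ?_⟩
      rw [← Bool.not_eq_true, hbit _ (adjE_lt s hs j hj h5)]
      exact fun h => h h4
  have hw : ∀ w g0 g1 g2 g3 g4,
      okW w g0 g1 g2 g3 g4 = true → g0.testBit (X 0) = true → g1.testBit (X 1) = true →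
      g2.testBit (X 2) = true → g3.testBit (X 3) = true → g4.testBit (X 4) = true →
      tgtR w < 16 ∧ wC w 5 < 81 ∧
        SideReal nb b Dir.pz (chC (81 * tgtR w + wC w 5)) (stC (81 * tgtR w + wC w 5)) := by
    intro w g0 g1 g2 g3 g4 hok b0 b1 b2 b3 b4
    obtain ⟨⟨ord, hW⟩, k0, k1, k2, k3, k4, e1, e2, e3⟩ := okW_sound hok
    refine ⟨by rw [e1]; exact e2, e3, ?_⟩
    rw [e1]
    refine node_w H hA hu hW ?_
    have hbits : ∀ s < 5, (rowC (81 * ringOf (wS w) s + wC w s)).testBit (X s) = true := by
      intro s hs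
      interval_cases s
      exacts [bit_of_land k0 b0, bit_of_land k1 b1, bit_of_land k2 b2, bit_of_land k3 b3,
        bit_of_land k4 b4]
    intro s hs
    rcases hX s hs with ⟨h1, h2⟩ | ⟨-, -, -, h4⟩
    · have h3 := hbits s hs
      rw [h2] at h3
      exact exposed_side H hs h1 h3
    · exact h4 _ (hbits s hs)
  obtain ⟨x, hx, h1, h2⟩ := chkC_sound hC t ht X
    (fun p => SideReal nb b Dir.pz (chC p) (stC p)) hX' hw
    (fun r c q hr hc ho hq => down_pz hr hc hq ho)
  refine ⟨x, hx, ?_, h2⟩
  intro j hj hb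
  exact (hbit _ (adjE5_lt j hj)).1 (h1 j hj hb)

/-- Every finite tree of bricks has a closed ladder, given the decision trees. -/
theorem exists_field_of_trees (hall : ∀ C < 32, ∃ t : Tr, chkC C t = true) {ι : Type}
    [Finite ι] [Nonempty ι] {nb : ι → Dir → Option ι} (H : NbOK nb)
    (hA : (bgraph nb).IsAcyclic) (hcon : (bgraph nb).Preconnected) :
    ∃ N χ ρ, BField nb N χ ρ :=
  exists_field_of (nodeCert_of hall) (fun hs _ h => holds_side hs h) H hA hcon

end Pool.Agent.Helper69.OT
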