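import Pool.Agent.Helper69.OT.Tab

/-!
# The checker of the certificate (project OT, MP_409f7f_co)

A state word `c < 81` codes the four states at the ring of a side in base three (`0` head, `1`
tail, `2` lateral).  A pattern is `81 r + c` with the ring word `r < 16` (bit 1: black).  A witness
`w` codes the colours of the eight corners, the state words of the sides `0 .. 4`, the state word
of the result and the order of the sides.
-/

set_option autoImplicit false

namespace Pool.Agent.Helper69.OT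

/-- Row `i` of a table with rows of `w` bits, cut with the mask `m`. -/
def row (tab w m i : ℕ) : ℕ := Nat.land (Nat.shiftRight tab (Nat.mul w i)) m

/-- The eight edges between the sides `0 .. 4`. -/
def okE (XT XA YT YA S1 S2 GT : ℕ) : Bool :=
  Nat.beq (Nat.land 0x97e (Nat.lor (Nat.land (Nat.xor S1 S2)
      (Nat.lor (Nat.xor XT YA) (Nat.xor XA YT)))
    (Nat.lor (Nat.land (Nat.land S1 S2)
        (Nat.land (Nat.lor XT YT) (Nat.xor 0xfff (Nat.lor XA YA))))
      (Nat.lor (Nat.land (Nat.xor 0xfff (Nat.lor S1 S2))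
          (Nat.land (Nat.lor XA YA) (Nat.xor 0xfff (Nat.lor XT YT))))
        (Nat.lor (Nat.land (Nat.xor 0xfff GT) (Nat.lor (Nat.land (Nat.lor S1 S2) XT)
            (Nat.land (Nat.xor 0xfff (Nat.lor S1 S2)) YA)))
          (Nat.land GT (Nat.lor (Nat.land (Nat.lor S1 S2) YT)
            (Nat.land (Nat.xor 0xfff (Nat.lor S1 S2)) XA)))))))) 0

/-- The four edges of the side `5`. -/
def okR (XT XA YT YA S1 S2 : ℕ) : Bool :=
  Nat.beq (Nat.land 0x681 (Nat.lor (Nat.land (Nat.xor S1 S2)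
      (Nat.lor (Nat.xor XT YT) (Nat.xor XA YA)))
    (Nat.lor (Nat.land (Nat.land S1 S2)
        (Nat.lor (Nat.land YA (Nat.xor 0xfff XA)) (Nat.land XT (Nat.xor 0xfff YT))))
      (Nat.land (Nat.xor 0xfff (Nat.lor S1 S2))
        (Nat.lor (Nat.land YT (Nat.xor 0xfff XT)) (Nat.land XA (Nat.xor 0xfff YA))))))) 0

/-- All edges, from the positions `H` of heads and tails. -/
def okH (H S1 S2 GT : ℕ) : Bool :=
  okE (Nat.land H 0xfff) (Nat.land (Nat.shiftRight H 24) 0xfff)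
    (Nat.land (Nat.shiftRight H 12) 0xfff) (Nat.land (Nat.shiftRight H 36) 0xfff) S1 S2 GT &&
  okR (Nat.land H 0xfff) (Nat.land (Nat.shiftRight H 24) 0xfff)
    (Nat.land (Nat.shiftRight H 12) 0xfff) (Nat.land (Nat.shiftRight H 36) 0xfff) S1 S2

/-- All images of the group `g` contain the pattern `(r, c)`. -/
def okG (g r c : ℕ) : Bool :=
  Nat.ble c 80 && Nat.beq (Nat.land g (row tCOL 256 (2 ^ 256 - 1) (Nat.add (Nat.mul 81 r) c))) g

/-- Row of the head and tail positions. -/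
def rowH (s c : ℕ) : ℕ := row tHT 48 0xffffffffffff (Nat.add (Nat.mul 81 s) c)

/-- The witness with colour data `R`, state words `c0 .. c5` and order `o`. -/
def okW2 (R c0 c1 c2 c3 c4 c5 o g0 g1 g2 g3 g4 : ℕ) : Bool :=
  Nat.testBit R 48 && Nat.ble c5 80 && okG g0 (Nat.land R 15) c0 &&
  okG g1 (Nat.land (Nat.shiftRight R 4) 15) c1 &&
  okG g2 (Nat.land (Nat.shiftRight R 8) 15) c2 &&
  okG g3 (Nat.land (Nat.shiftRight R 12) 15) c3 &&
  okG g4 (Nat.land (Nat.shiftRight R 16) 15) c4 &&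
  okH (Nat.lor (rowH 0 c0) (Nat.lor (rowH 1 c1) (Nat.lor (rowH 2 c2) (Nat.lor (rowH 3 c3)
    (Nat.lor (rowH 4 c4) (rowH 5 c5)))))) (Nat.land (Nat.shiftRight R 24) 0xfff)
    (Nat.land (Nat.shiftRight R 36) 0xfff) (row tORD 12 0xfff o)

/-- Colours of the corners. -/
def wS (w : ℕ) : ℕ := Nat.land w 255

/-- State word of the side `s` (`s = 5`: the result). -/
def wC (w s : ℕ) : ℕ := Nat.land (Nat.shiftRight w (Nat.add 8 (Nat.mul 7 s))) 127

/-- Number of the order. -/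
def wO (w : ℕ) : ℕ := Nat.land (Nat.shiftRight w 50) 127

/-- Colour data. -/
def wR (w : ℕ) : ℕ := row tSG 64 0xffffffffffffffff (wS w)

/-- Check of a witness. -/
def okW (w g0 g1 g2 g3 g4 : ℕ) : Bool :=
  okW2 (wR w) (wC w 0) (wC w 1) (wC w 2) (wC w 3) (wC w 4) (wC w 5) (wO w) g0 g1 g2 g3 g4

/-- Ring word of the result. -/
def tgtR (w : ℕ) : ℕ := Nat.land (Nat.shiftRight (wR w) 20) 15

/-- Adds the result of the witness and all weaker patterns. -/
def addV (w V : ℕ) : ℕ :=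
  Nat.lor V (Nat.shiftLeft (row tDN 81 (2 ^ 81 - 1) (Nat.add (Nat.mul 81 (tgtR w)) (wC w 5)))
    (Nat.mul 81 (tgtR w)))

/-- Runs through `n` witnesses packed in `P`. -/
def run (g0 g1 g2 g3 g4 : ℕ) : ℕ → ℕ → ℕ → ℕ
  | 0, _, V => V
  | n + 1, P, V => bif okW (Nat.land P 0xffffffffffffffff) g0 g1 g2 g3 g4 then
      run g0 g1 g2 g3 g4 n (Nat.shiftRight P 64) (addV (Nat.land P 0xffffffffffffffff) V) else 0

/-- Decision trees. -/
inductive Tr
  | L (x P n : ℕ)
  | N (i p P n : ℕ) (a b : Tr)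

/-- Row of images. -/
def rowC (p : ℕ) : ℕ := row tCOL 256 (2 ^ 256 - 1) p

/-- Patterns of an image. -/
def rowI (x : ℕ) : ℕ := row tIMG 1296 (2 ^ 1296 - 1) x

/-- Check of a decision tree. -/
def chk (allow : ℕ) : Tr → ℕ → ℕ → ℕ → ℕ → ℕ → ℕ → Bool
  | Tr.L x P n, g0, g1, g2, g3, g4, V => Nat.testBit allow x &&
     Nat.beq (Nat.land (rowI x) (run g0 g1 g2 g3 g4 n P V)) (rowI x)
  | Tr.N i p P n a b, g0, g1, g2, g3, g4, V =>
      match i with
      | 0 => chk allow a (Nat.land g0 (rowC p)) g1 g2 g3 g4 (run g0 g1 g2 g3 g4 n P V) &&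
          chk allow b (Nat.xor g0 (Nat.land g0 (rowC p))) g1 g2 g3 g4 (run g0 g1 g2 g3 g4 n P V)
      | 1 => chk allow a g0 (Nat.land g1 (rowC p)) g2 g3 g4 (run g0 g1 g2 g3 g4 n P V) &&
          chk allow b g0 (Nat.xor g1 (Nat.land g1 (rowC p))) g2 g3 g4 (run g0 g1 g2 g3 g4 n P V)
      | 2 => chk allow a g0 g1 (Nat.land g2 (rowC p)) g3 g4 (run g0 g1 g2 g3 g4 n P V) &&
          chk allow b g0 g1 (Nat.xor g2 (Nat.land g2 (rowC p))) g3 g4 (run g0 g1 g2 g3 g4 n P V)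
      | 3 => chk allow a g0 g1 g2 (Nat.land g3 (rowC p)) g4 (run g0 g1 g2 g3 g4 n P V) &&
          chk allow b g0 g1 g2 (Nat.xor g3 (Nat.land g3 (rowC p))) g4 (run g0 g1 g2 g3 g4 n P V)
      | _ => chk allow a g0 g1 g2 g3 (Nat.land g4 (rowC p)) (run g0 g1 g2 g3 g4 n P V) &&
          chk allow b g0 g1 g2 g3 (Nat.xor g4 (Nat.land g4 (rowC p))) (run g0 g1 g2 g3 g4 n P V)

/-- Row of the starting groups. -/
def rowG (C s : ℕ) : ℕ := row tG0 256 (2 ^ 256 - 1) (Nat.add (Nat.mul 5 C) s)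

/-- Check of a decision tree for the set `C` of children. -/
def chkC (C : ℕ) (t : Tr) : Bool :=
  chk (row tAL 256 (2 ^ 256 - 1) C) t (rowG C 0) (rowG C 1) (rowG C 2) (rowG C 3) (rowG C 4) 0

end Pool.Agent.Helper69.OT
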