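import Pool.Agent.Helper84.LD.Unfold
import Pool.Agent.Helper17.UF.Tree

/-!
# Orthotrees (project OT, MP_409f7f_co): definitions

Bricks are boxes of unit cubes, glued along whole faces.  `nb i d` is the brick glued to the side
`d` of the brick `i`.  A brick face is a pair `(i, d)` with `nb i d = none`.
-/

set_option autoImplicit false

namespace Pool.Agent.Helper69.OT

open Pool.Agent.Helper17.UF Relation

/-- A side of a brick. -/
abbrev BF (ι : Type) := ι × Dir

section field

variable {ι : Type} (nb : ι → Dir → Option ι)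

/-- The side `A.2` of the brick `A.1` is exposed. -/
def IsBF (A : BF ι) : Prop := nb A.1 A.2 = none

/-- Crossing the side `t` of the brick face `A`: the next brick face and the direction that leads
back. -/
def bnbr (A : BF ι) (t : Dir) : BF ι × Dir :=
  match nb A.1 t with
  | none => ((A.1, t), A.2)
  | some j => match nb j A.2 with
    | none => ((j, A.2), t.neg)
    | some k => ((k, t.neg), A.2.neg)

/-- Positive directions. -/
def pos : Dir → Bool
  | Dir.px => true | Dir.py => true | Dir.pz => true
  | _ => false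

/-- The corner of a box towards three directions on different axes. -/
def cor (d t l : Dir) : Fin 3 → Bool := fun a =>
  if a = d.axis then pos d else if a = t.axis then pos t else pos l

/-- Three directions on different axes. -/
def Perp3 (d t l : Dir) : Prop :=
  Dir.perp d t = true ∧ Dir.perp d l = true ∧ Dir.perp t l = true

instance (d t l : Dir) : Decidable (Perp3 d t l) := by unfold Perp3; infer_instance

/-- The side `t` of the brick face `A` has ends of different colours. -/
def BiSide (χ : ι → (Fin 3 → Bool) → Bool) (A : BF ι) (t : Dir) : Prop :=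
  ∃ l : Dir, Perp3 A.2 t l ∧ χ A.1 (cor A.2 t l) ≠ χ A.1 (cor A.2 t l.neg)

/-- The curve passes through the brick face `A` and its side to `B`. -/
def BBi (χ : ι → (Fin 3 → Bool) → Bool) (A B : BF ι) : Prop :=
  IsBF nb A ∧ ∃ t : Dir, BiSide χ A t ∧ (bnbr nb A t).1 = B

/-- A closed ladder on the brick faces: `N A` is the direction of the column through `A`, `χ` the
colours of the corners of the bricks (true = white), `ρ` a rank that decreases along columns. -/
structure BField (N : BF ι → Dir) (χ : ι → (Fin 3 → Bool) → Bool) (ρ : BF ι → ℕ) : Prop where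
  perp : ∀ A, IsBF nb A → Dir.perp A.2 (N A) = true
  neck : ∀ i d j, nb i d = some j → ∀ t l, Perp3 d t l → χ i (cor d t l) = χ j (cor d.neg t l)
  mono : ∀ A, IsBF nb A → ∀ l, Perp3 A.2 (N A) l → χ A.1 (cor A.2 (N A).neg l) = true →
    χ A.1 (cor A.2 (N A) l) = true
  top : ∀ A, IsBF nb A → N (bnbr nb A (N A)).1 ≠ (bnbr nb A (N A)).2.neg →
    ∀ l, Perp3 A.2 (N A) l → χ A.1 (cor A.2 (N A) l) = true
  bot : ∀ A, IsBF nb A → N (bnbr nb A (N A).neg).1 ≠ (bnbr nb A (N A).neg).2 →
    ∀ l, Perp3 A.2 (N A) l → χ A.1 (cor A.2 (N A).neg l) = false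
  rank : ∀ A, IsBF nb A → N (bnbr nb A (N A)).1 = (bnbr nb A (N A)).2.neg →
    ρ (bnbr nb A (N A)).1 < ρ A
  conn : ∀ A B, IsBF nb A → IsBF nb B → (∃ t, BiSide χ A t) → (∃ t, BiSide χ B t) →
    EqvGen (BBi nb χ) A B

/-- Abstract systems of bricks: gluing is symmetric, and there is no cycle of four bricks around
an edge. -/
structure NbOK : Prop where
  symm : ∀ i d j, nb i d = some j → nb j d.neg = some i
  irrefl : ∀ i d, nb i d ≠ some i
  uniq : ∀ i d t j, nb i d = some j → nb i t = some j → d = t
  good : ∀ i d t j k, Dir.perp d t = true → nb i d = some j → nb i t = some k → nb j t = none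

/-- The graph of the bricks. -/
def bgraph : SimpleGraph ι where
  Adj i j := i ≠ j ∧ ((∃ d, nb i d = some j) ∨ ∃ d, nb j d = some i)
  symm := ⟨fun _ _ h => ⟨h.1.symm, h.2.symm⟩⟩
  loopless := ⟨fun _ h => h.1 rfl⟩

end field

section geometry

/-- Coordinates of a lattice point. -/
def co (v : Cube) : Fin 3 → ℤ := ![v.1, v.2.1, v.2.2]

/-- The unit cubes of the brick with lowest cube `lo i` and highest cube `hi i`. -/
noncomputable def brick {ι : Type} (lo hi : ι → Cube) (i : ι) : Finset Cube := Finset.Icc (lo i) (hi i)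

/-- The bricks `i` and `j` share a unit square, in the direction `d` from `i`. -/
def Glued {ι : Type} (lo hi : ι → Cube) (i : ι) (d : Dir) (j : ι) : Prop :=
  i ≠ j ∧ ∃ v ∈ brick lo hi i, v + d.vec ∈ brick lo hi j

/-- A system of disjoint bricks glued along whole faces. -/
structure BrickSys {ι : Type} (lo hi : ι → Cube) : Prop where
  le : ∀ i, lo i ≤ hi i
  disj : ∀ i j, i ≠ j → Disjoint (brick lo hi i) (brick lo hi j)
  full : ∀ i j d, Glued lo hi i d j → ∀ a : Fin 3, a ≠ d.axis →
    co (lo i) a = co (lo j) a ∧ co (hi i) a = co (hi j) a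

/-- The polycube of a system of bricks. -/
noncomputable def cubes {ι : Type} [Fintype ι] (lo hi : ι → Cube) : Finset Cube :=
  Finset.univ.biUnion (brick lo hi)

/-- The neighbour function of a system of bricks. -/
noncomputable def bnb {ι : Type} (lo hi : ι → Cube) (i : ι) (d : Dir) : Option ι := by
  classical
  exact if h : ∃ j, Glued lo hi i d j then some h.choose else none

/-- The edge of the closed box of the brick `i` where its sides `d` and `t` meet. -/
def brickEdge {ι : Type} (lo hi : ι → Cube) (i : ι) (d t : Dir) : Set E3 :=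
  {x | (∀ a : Fin 3, (co (lo i) a : ℝ) ≤ x a ∧ x a ≤ co (hi i) a + 1) ∧
    ∀ s : Dir, s = d ∨ s = t →
      x s.axis = if pos s then (co (hi i) s.axis : ℝ) + 1 else (co (lo i) s.axis : ℝ)}

/-- The polycube of a system of bricks has an edge unfolding that only cuts edges of bricks. -/
def HasBrickUnfolding {ι : Type} [Fintype ι] (lo hi : ι → Cube) : Prop :=
  ∃ (T : Set (Set E3)) (φ : Face → E3 → E2),
    (∀ e ∈ T, IsEdge (cubes lo hi) e ∧ ∃ i d t, Dir.perp d t = true ∧ e ⊆ brickEdge lo hi i d t) ∧
    (∀ A, IsFace (cubes lo hi) A → ∀ x ∈ square A, ∀ y ∈ square A,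
      dist (φ A x) (φ A y) = dist x y) ∧
    (∀ A B, IsFace (cubes lo hi) A → IsFace (cubes lo hi) B → ∀ e, IsEdge (cubes lo hi) e →
      e ∉ T → e ⊆ square A → e ⊆ square B → ∀ x ∈ e, φ A x = φ B x) ∧
    (∀ A B, IsFace (cubes lo hi) A → IsFace (cubes lo hi) B → A ≠ B →
      Disjoint (interior (φ A '' square A)) (interior (φ B '' square B))) ∧
    (∀ A B, IsFace (cubes lo hi) A → IsFace (cubes lo hi) B → Relation.ReflTransGen
      (fun C D => IsFace (cubes lo hi) C ∧ IsFace (cubes lo hi) D ∧
        ∃ e, IsEdge (cubes lo hi) e ∧ e ∉ T ∧ e ⊆ square C ∧ e ⊆ square D) A B)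

theorem HasBrickUnfolding.hasEdgeUnfolding {ι : Type} [Fintype ι] {lo hi : ι → Cube}
    (h : HasBrickUnfolding lo hi) : HasEdgeUnfolding (cubes lo hi) := by
  obtain ⟨T, φ, h1, h2, h3, h4, h5⟩ := h
  exact ⟨T, φ, fun e he => (h1 e he).1, h2, h3, h4, h5⟩

end geometry

end Pool.Agent.Helper69.OT
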