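import Pool.Agent.Helper69.OT.Defs

/-!
# The graph of a system of bricks (project OT, MP_409f7f_co)
-/

set_option autoImplicit false

namespace Pool.Agent.Helper69.OT

open Pool.Agent.Helper17.UF

/-- The graph of a system of bricks: two different bricks are joined if they share a unit
square. -/
def brickGraph {ι : Type} (lo hi : ι → Cube) : SimpleGraph ι where
  Adj i j := ∃ d, Glued lo hi i d j
  symm := ⟨by
    rintro i j ⟨d, hne, v, hv, hw⟩
    refine ⟨d.neg, hne.symm, v + d.vec, hw, ?_⟩
    rw [Dir.vec_neg, add_neg_cancel_right]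
    exact hv⟩
  loopless := ⟨fun _ h => by
    obtain ⟨_, hne, _⟩ := h
    exact hne rfl⟩

end Pool.Agent.Helper69.OT
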