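import Pool.Agent.Helper69.OT.Root

/-!
# Induction over the branches (project OT, MP_409f7f_co)
-/

set_option autoImplicit false

namespace Pool.Agent.Helper69.OT

open Pool.Agent.Helper17.UF Pool.Agent.Helper26.OT Relation

/-- The step at a brick: `M x` is the set of ring positions at which the image `x` requires
children of the first brick of the branch. -/
def NodeCert (M : ℕ → ℕ) : Prop :=
  ∀ {ι : Type} [Finite ι] {nb : ι → Dir → Option ι}, NbOK nb → (bgraph nb).IsAcyclic →
    ∀ {b y : ι}, nb b Dir.pz = some y → ∀ X : ℕ → ℕ,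
    (∀ s < 5, (nb y (sideD s) = none ∧ X s = nIM) ∨ (nb y (sideD s) ≠ none ∧ X s < nIM ∧
      (∀ j < 4, (M (X s)).testBit j = true → nb y (sideD (adjE s j)) = none) ∧
      ∀ p, (rowC p).testBit (X s) = true → SideReal nb y (sideD s) (chP s p) (stP s p))) →
    ∃ x < nIM, (∀ j < 4, (M x).testBit j = true → nb y (sideD (adjE 5 j)) ≠ none) ∧
      ∀ p, (rowC p).testBit x = true → SideReal nb b Dir.pz (chC p) (stC p)

/-- Transport of a pattern from the frame of a side. -/
def HoldsSide : Prop :=
  ∀ {ι : Type} {nb : ι → Dir → Option ι} {y : ι} {s : ℕ}, s < 5 → ∀ {p : ℕ},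
    SideReal (fun i d => nb i (frS s d)) y Dir.pz (chC p) (stC p) →
    SideReal nb y (sideD s) (chP s p) (stP s p)

theorem frS_pz : ∀ s < 5, frS s Dir.pz = sideD s := by decide

theorem frS_adj : ∀ s < 5, ∀ j < 4, frS s (sideD (adjE 5 j)) = sideD (adjE s j) := by decide

theorem frS_isFrame' : ∀ s < 5, (∀ d, frS s d.neg = (frS s d).neg) ∧
    ∀ d t, Dir.perp (frS s d) (frS s t) = Dir.perp d t := by decide

theorem perp_adjE : ∀ s < 5, ∀ j < 4, Dir.perp (sideD s) (sideD (adjE s j)) = true := by decide

theorem sideD_ne_nz : ∀ s < 5, sideD s ≠ Dir.nz := by decide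

theorem pat152 : ∀ x < nIM, (rowC 152).testBit x = true := by decide +kernel

variable {M : ℕ → ℕ} (hM : NodeCert M) (hS : HoldsSide)

include hM hS

/-- Every branch, seen in any frame, realizes all the patterns of some image. -/
theorem branch_image {ι : Type} [Finite ι] {nb : ι → Dir → Option ι} (H : NbOK nb)
    (hA : (bgraph nb).IsAcyclic) (b y : ι) (hby : (bgraph nb).Adj b y) :
    ∀ k : Dir → Dir, IsFrame k → nb b (k Dir.pz) = some y →
      ∃ x < nIM, (∀ j < 4, (M x).testBit j = true → nb y (k (sideD (adjE 5 j))) ≠ none) ∧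
      ∀ p, (rowC p).testBit x = true →
        SideReal (fun i d => nb i (k d)) b Dir.pz (chC p) (stC p) := by
  refine branch_induction (G := bgraph nb) hA (P := Set.univ) Set.finite_univ
    (fun a b _ => ⟨trivial, trivial⟩)
    (fun b y => ∀ k : Dir → Dir, IsFrame k → nb b (k Dir.pz) = some y →
      ∃ x < nIM, (∀ j < 4, (M x).testBit j = true → nb y (k (sideD (adjE 5 j))) ≠ none) ∧
      ∀ p, (rowC p).testBit x = true →
        SideReal (fun i d => nb i (k d)) b Dir.pz (chC p) (stC p)) ?_ b y hby
  intro b y hby ih k hk hu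
  have H' : NbOK (fun i d => nb i (k d)) := H.comp hk
  have hA' : (bgraph (fun i d => nb i (k d))).IsAcyclic := by
    rw [bgraph_comp hk]; exact hA
  have hback : nb y (k Dir.nz) = some b := by
    have := H.symm _ _ _ hu
    rw [← hk.neg] at this
    exact this
  have hex : ∀ s : ℕ, ∃ x : ℕ, s < 5 → (nb y (k (sideD s)) = none ∧ x = nIM) ∨
      (nb y (k (sideD s)) ≠ none ∧ x < nIM ∧
      (∀ j < 4, (M x).testBit j = true → nb y (k (sideD (adjE s j))) = none) ∧
      ∀ p, (rowC p).testBit x = true →
        SideReal (fun i d => nb i (k d)) y (sideD s) (chP s p) (stP s p)) := by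
    intro s
    by_cases hs : s < 5
    · cases hz : nb y (k (sideD s)) with
      | none => exact ⟨nIM, fun _ => Or.inl ⟨rfl, rfl⟩⟩
      | some z =>
        have hzb : z ≠ b := by
          rintro rfl
          have := H.uniq _ _ _ _ hz hback
          exact sideD_ne_nz s hs (hk.inj this)
        have hfr : IsFrame (frS s) := ⟨(frS_isFrame' s hs).1, (frS_isFrame' s hs).2⟩
        obtain ⟨x, hx, h1, h2⟩ := ih z (bgraph_adj_of H hz) hzb (fun d => k (frS s d))
          (hk.comp hfr) (by rw [frS_pz s hs]; exact hz)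
        refine ⟨x, fun _ => Or.inr ⟨by simp, hx, ?_, ?_⟩⟩
        · intro j hj hb
          have h3 := h1 j hj hb
          rw [frS_adj s hs j hj] at h3
          by_contra hne
          obtain ⟨w, hw⟩ := Option.ne_none_iff_exists'.1 hne
          refine h3 (H.good y _ _ z w ?_ hz hw)
          rw [hk.perp]
          exact perp_adjE s hs j hj
        · intro p hp
          exact hS (nb := fun i d => nb i (k d)) hs (h2 p hp)
    · exact ⟨0, fun h => absurd h hs⟩
  choose X hX using hex
  exact hM H' hA' (b := b) (y := y) hu X (fun s hs => hX s hs)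

/-- Every finite tree of bricks has a closed ladder. -/
theorem exists_field_of {ι : Type} [Finite ι] [Nonempty ι] {nb : ι → Dir → Option ι}
    (H : NbOK nb) (hA : (bgraph nb).IsAcyclic) (hcon : (bgraph nb).Preconnected) :
    ∃ N χ ρ, BField nb N χ ρ := by
  by_cases hE : ∃ a b, (bgraph nb).Adj a b
  · obtain ⟨r, y, hry, hleaf⟩ := exists_leaf (G := bgraph nb) hA (P := Set.univ)
      Set.finite_univ (fun a b _ => ⟨trivial, trivial⟩) hE
    obtain ⟨u, hu⟩ := exists_of_adj H hry
    obtain ⟨k, hk, hku⟩ := exists_frame u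
    rw [← hku] at hu
    obtain ⟨x, hx, -, h2⟩ := branch_image hM hS H hA r y hry k hk hu
    have H' : NbOK (fun i d => nb i (k d)) := H.comp hk
    have hA' : (bgraph (fun i d => nb i (k d))).IsAcyclic := by
      rw [bgraph_comp hk]; exact hA
    have hcon' : (bgraph (fun i d => nb i (k d))).Preconnected := by
      rw [bgraph_comp hk]; exact hcon
    obtain ⟨N, χ, ρ, hF⟩ := close_root (nb := fun i d => nb i (k d)) H' hA' hcon' (b := r)
      (fun d hd => by
        by_contra hne
        obtain ⟨z, hz⟩ := Option.ne_none_iff_exists'.1 hne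
        have hzy := hleaf z (bgraph_adj_of H hz)
        subst hzy
        exact hd (hk.inj (H.uniq _ _ _ _ hz hu))) (h2 152 (pat152 x hx))
    exact hF.push hk
  · obtain ⟨b⟩ := ‹Nonempty ι›
    refine close_one H hA hcon (b := b) ?_
    intro d
    by_contra hne
    obtain ⟨z, hz⟩ := Option.ne_none_iff_exists'.1 hne
    exact hE ⟨_, _, bgraph_adj_of H hz⟩

end Pool.Agent.Helper69.OT
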