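import Pool.Agent.Helper69.OT.Spec
import Pool.Agent.Helper84.OT.Compose
import Pool.Agent.Helper25.OT.Frame

/-!
# The root (project OT, MP_409f7f_co)
-/

set_option autoImplicit false

namespace Pool.Agent.Helper69.OT

open Pool.Agent.Helper17.UF Pool.Agent.Helper26.OT Relation

variable {ι : Type} {nb : ι → Dir → Option ι}

/-- The conditions of `close` for the colouring `σ`, states `st` and order `o`, as Booleans. -/
def closeB (σ : ℕ) (st : Dir → Dir → St) (o : Dir → ℕ) : Bool :=
  dirs.all fun d => dirs.all fun s => !(Dir.perp d s) ||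
    (edgeC (ecol (vch σ) d s) (st d s) (st s d) &&
      (!(flowC (ecol (vch σ) d s) (st d s) (st s d)) || decide (o s < o d)))

theorem closeB_spec {σ : ℕ} {st : Dir → Dir → St} {o : Dir → ℕ} (h : closeB σ st o = true)
    (d s : Dir) (hp : Dir.perp d s = true) :
    edgeC (ecol (vch σ) d s) (st d s) (st s d) = true ∧
      (flowC (ecol (vch σ) d s) (st d s) (st s d) = true → o s < o d) := by
  have h1 := List.all_eq_true.1 h d (mem_dirs d)
  have h2 := List.all_eq_true.1 h1 s (mem_dirs s)
  simp only [hp, Bool.not_true, Bool.false_or, Bool.and_eq_true, Bool.or_eq_true,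
    Bool.not_eq_true', decide_eq_true_eq] at h2
  refine ⟨h2.1, fun hf => ?_⟩
  rcases h2.2 with h3 | h3
  · rw [hf] at h3
    exact absurd h3 (by decide)
  · exact h3

/-- Heads of the exposed sides of the root. -/
def rootN : Dir → Dir
  | Dir.px => Dir.py | Dir.nx => Dir.py | Dir.py => Dir.pz | Dir.ny => Dir.px
  | Dir.pz => Dir.px | Dir.nz => Dir.py

/-- Order of the sides of the root. -/
def rootO : Dir → ℕ
  | Dir.px => 0 | Dir.nx => 0 | Dir.py => 1 | Dir.ny => 1 | Dir.pz => 0 | Dir.nz => 2

/-- States at the root. -/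
def rootS (d t : Dir) : St := if d = Dir.pz then stC 152 t else stOf (rootN d) t

theorem root_closeB : closeB 19 rootS rootO = true := by decide +kernel

theorem root_perp : ∀ d : Dir, d ≠ Dir.pz → Dir.perp d (rootN d) = true := by decide

theorem root_mono : ∀ d l : Dir, d ≠ Dir.pz → Perp3 d (rootN d) l →
    vch 19 (cor d (rootN d).neg l) = true → vch 19 (cor d (rootN d) l) = true := by
  decide +kernel

theorem root_agree : ∀ t l : Dir, Perp3 Dir.pz t l →
    chC 152 (cor Dir.pz t l) = vch 19 (cor Dir.pz t l) := by
  decide +kernel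

theorem SideReal.congr {y : ι} {d : Dir} {χ0 χ1 : (Fin 3 → Bool) → Bool} {st : Dir → St}
    (h : SideReal nb y d χ0 st)
    (hc : ∀ t l, Perp3 d t l → χ0 (cor d t l) = χ1 (cor d t l)) : SideReal nb y d χ1 st := by
  obtain ⟨N, χ, ρ, h1, h2⟩ := h
  exact ⟨N, χ, ρ, fun t l hp => (h1 t l hp).trans (hc t l hp), h2⟩

/-- A leaf brick closes the pattern `152` of the branch behind its neck. -/
theorem close_root (H : NbOK nb) (hA : (bgraph nb).IsAcyclic) [Finite ι]
    (hcon : (bgraph nb).Preconnected) {b : ι} (hexp : ∀ d, d ≠ Dir.pz → nb b d = none)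
    (h : SideReal nb b Dir.pz (chC 152) (stC 152)) : ∃ N χ ρ, BField nb N χ ρ := by
  refine close H hA hcon b (χy := vch 19) (st := rootS) rootO ?_
    (fun d s hp => (closeB_spec root_closeB d s hp).1)
    (fun d s hp => (closeB_spec root_closeB d s hp).2) ?_
  · intro d
    by_cases hd : d = Dir.pz
    · subst hd
      have : rootS Dir.pz = stC 152 := by
        funext t
        simp [rootS]
      rw [this]
      exact h.congr root_agree
    · have : rootS d = stOf (rootN d) := by
        funext t
        simp [rootS, hd]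
      rw [this]
      exact SideReal.exposed H (hexp d hd) (root_perp d hd) (fun l => root_mono d l hd)
  · intro d s h1 h2
    exact bond_conn (by decide) (by decide +kernel) (fun _ => True) (Or.inl fun _ => trivial) d s
      trivial trivial h1 h2

/-- Heads of the sides of a single brick. -/
def oneN : Dir → Dir
  | Dir.pz => Dir.ny | Dir.nz => Dir.nx | _ => Dir.pz

/-- Order of the sides of a single brick. -/
def oneO : Dir → ℕ
  | Dir.py => 1 | Dir.nz => 1 | _ => 0

theorem one_closeB : closeB 15 (fun d => stOf (oneN d)) oneO = true := by decide +kernel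

theorem one_perp : ∀ d : Dir, Dir.perp d (oneN d) = true := by decide

theorem one_mono : ∀ d l : Dir, Perp3 d (oneN d) l →
    vch 15 (cor d (oneN d).neg l) = true → vch 15 (cor d (oneN d) l) = true := by
  decide +kernel

/-- A single brick. -/
theorem close_one (H : NbOK nb) (hA : (bgraph nb).IsAcyclic) [Finite ι]
    (hcon : (bgraph nb).Preconnected) {b : ι} (hexp : ∀ d, nb b d = none) :
    ∃ N χ ρ, BField nb N χ ρ := by
  refine close H hA hcon b (χy := vch 15) (st := fun d => stOf (oneN d)) oneO ?_
    (fun d s hp => (closeB_spec one_closeB d s hp).1)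
    (fun d s hp => (closeB_spec one_closeB d s hp).2) ?_
  · intro d
    exact SideReal.exposed H (hexp d) (one_perp d) (one_mono d)
  · intro d s h1 h2
    exact bond_conn (by decide) (by decide +kernel) (fun _ => True) (Or.inl fun _ => trivial) d s
      trivial trivial h1 h2

end Pool.Agent.Helper69.OT
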