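import Pool.Agent.Helper69.OT.Check

/-!
# Steps of the check of a decision tree (project OT, MP_409f7f_co)
-/

set_option autoImplicit false

namespace Pool.Agent.Helper69.OT

variable {allow p P n : ℕ} {a b : Tr} {g0 g1 g2 g3 g4 V ga gb V' : ℕ}

theorem chk_N0 (h1 : Nat.land g0 (rowC p) = ga) (h2 : Nat.xor g0 (Nat.land g0 (rowC p)) = gb)
    (h3 : run g0 g1 g2 g3 g4 n P V = V') (ha : chk allow a ga g1 g2 g3 g4 V' = true)
    (hb : chk allow b gb g1 g2 g3 g4 V' = true) :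
    chk allow (Tr.N 0 p P n a b) g0 g1 g2 g3 g4 V = true := by
  subst h1 h2 h3
  simp only [chk, ha, hb, Bool.and_self]


theorem chk_N1 (h1 : Nat.land g1 (rowC p) = ga) (h2 : Nat.xor g1 (Nat.land g1 (rowC p)) = gb)
    (h3 : run g0 g1 g2 g3 g4 n P V = V') (ha : chk allow a g0 ga g2 g3 g4 V' = true)
    (hb : chk allow b g0 gb g2 g3 g4 V' = true) :
    chk allow (Tr.N 1 p P n a b) g0 g1 g2 g3 g4 V = true := by
  subst h1 h2 h3
  simp only [chk, ha, hb, Bool.and_self]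


theorem chk_N2 (h1 : Nat.land g2 (rowC p) = ga) (h2 : Nat.xor g2 (Nat.land g2 (rowC p)) = gb)
    (h3 : run g0 g1 g2 g3 g4 n P V = V') (ha : chk allow a g0 g1 ga g3 g4 V' = true)
    (hb : chk allow b g0 g1 gb g3 g4 V' = true) :
    chk allow (Tr.N 2 p P n a b) g0 g1 g2 g3 g4 V = true := by
  subst h1 h2 h3
  simp only [chk, ha, hb, Bool.and_self]


theorem chk_N3 (h1 : Nat.land g3 (rowC p) = ga) (h2 : Nat.xor g3 (Nat.land g3 (rowC p)) = gb)
    (h3 : run g0 g1 g2 g3 g4 n P V = V') (ha : chk allow a g0 g1 g2 ga g4 V' = true)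
    (hb : chk allow b g0 g1 g2 gb g4 V' = true) :
    chk allow (Tr.N 3 p P n a b) g0 g1 g2 g3 g4 V = true := by
  subst h1 h2 h3
  simp only [chk, ha, hb, Bool.and_self]


theorem chk_N4 (h1 : Nat.land g4 (rowC p) = ga) (h2 : Nat.xor g4 (Nat.land g4 (rowC p)) = gb)
    (h3 : run g0 g1 g2 g3 g4 n P V = V') (ha : chk allow a g0 g1 g2 g3 ga V' = true)
    (hb : chk allow b g0 g1 g2 g3 gb V' = true) :
    chk allow (Tr.N 4 p P n a b) g0 g1 g2 g3 g4 V = true := by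
  subst h1 h2 h3
  simp only [chk, ha, hb, Bool.and_self]


theorem chkC_of {C al : ℕ} {t : Tr} (h : row tAL 256 (2 ^ 256 - 1) C = al)
    (h0 : rowG C 0 = g0) (h1 : rowG C 1 = g1) (h2 : rowG C 2 = g2) (h3 : rowG C 3 = g3)
    (h4 : rowG C 4 = g4) (hc : chk al t g0 g1 g2 g3 g4 0 = true) : chkC C t = true := by
  subst h h0 h1 h2 h3 h4
  exact hc

end Pool.Agent.Helper69.OT
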