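import Pool.Agent.Helper69.OT.TreeA9
import Pool.Agent.Helper69.OT.TreeB10
import Pool.Agent.Helper69.OT.TreeC10

/-!
# All decision trees (project OT, MP_409f7f_co)
-/

set_option autoImplicit false

namespace Pool.Agent.Helper69.OT

/-- Every set of children has a valid decision tree. -/
theorem all_ok : ∀ C < 32, ∃ t : Tr, chkC C t = true := by
  intro C hC
  interval_cases C
  · exact ⟨tr0, ok0⟩
  · exact ⟨tr1, ok1⟩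
  · exact ⟨tr2, ok2⟩
  · exact ⟨tr3, ok3⟩
  · exact ⟨tr4, ok4⟩
  · exact ⟨tr5, ok5⟩
  · exact ⟨tr6, ok6⟩
  · exact ⟨tr7, ok7⟩
  · exact ⟨tr8, ok8⟩
  · exact ⟨tr9, ok9⟩
  · exact ⟨tr10, ok10⟩
  · exact ⟨tr11, ok11⟩
  · exact ⟨tr12, ok12⟩
  · exact ⟨tr13, ok13⟩
  · exact ⟨tr14, ok14⟩
  · exact ⟨tr15, ok15⟩
  · exact ⟨tr16, ok16⟩
  · exact ⟨tr17, ok17⟩
  · exact ⟨tr18, ok18⟩
  · exact ⟨tr19, ok19⟩
  · exact ⟨tr20, ok20⟩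
  · exact ⟨tr21, ok21⟩
  · exact ⟨tr22, ok22⟩
  · exact ⟨tr23, ok23⟩
  · exact ⟨tr24, ok24⟩
  · exact ⟨tr25, ok25⟩
  · exact ⟨tr26, ok26⟩
  · exact ⟨tr27, ok27⟩
  · exact ⟨tr28, ok28⟩
  · exact ⟨tr29, ok29⟩
  · exact ⟨tr30, ok30⟩
  · exact ⟨tr31, ok31⟩

end Pool.Agent.Helper69.OT
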